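import Mathlib
import Pool.Agent.H92.FP.Cut

set_option autoImplicit false

/-!
# Edge-maximal fan-planar graphs: connected, at least n edges, edge-maximal blocks, bridges form a matching

Definitions (`Pool/Agent/H92/FP/Defs.lean`): `FanDrawing G pos arc`: a fan-planar drawing of `G` in the complex plane
(`pos`: places of the vertices, `arc a b`: the edge `ab` as a simple arc from `a` to `b`); `Crosses`: a crossing of
two edges; `FanPlanar G`: there is such a drawing; `EdgeMaximal G`: `G` is fan-planar and no graph `G + uv` is.
-/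

namespace Pool.Agent.Results.MP_0e1dbc_co.BlockStructure

open Pool.Agent.H92.FP

theorem result (V : Type) [Fintype V] (G : SimpleGraph V) (hG : EdgeMaximal G) :
    -- (1) connected
    G.Preconnected ∧
    -- (2) at least as many edges as vertices
    (3 ≤ Fintype.card V → Fintype.card V ≤ G.edgeSet.ncard) ∧
    -- (3) the two sides of a cut vertex `u` are edge-maximal
    (∀ (A : Set V) (u : V), u ∈ A → (∀ a ∈ A, ∀ b ∉ A, G.Adj a b → a = u) →
      EdgeMaximal (G.induce A) ∧ EdgeMaximal (G.induce (Aᶜ ∪ {u}))) ∧
    -- (4) different bridges have no common end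
    (∀ b x y : V, x ≠ y → G.Adj b x → G.Adj b y → G.IsBridge s(b, x) → ¬ G.IsBridge s(b, y)) := by
  refine ⟨preconnected_of_edgeMaximal hG, card_le_edges hG, fun A u hu hA => ⟨edgeMaximal_cut hG hu hA, ?_⟩,
    fun b x y hxy hbx hby h1 h2 => bridges_matching hG hxy hbx hby h1 h2⟩
  refine edgeMaximal_cut hG (u := u) (Or.inr rfl) ?_
  rintro a (ha | ha) b hb hab
  · exfalso
    have hbA : b ∈ A := by
      by_contra h
      exact hb (Or.inl h)
    have hbu : b = u := hA b hbA a ha hab.symm
    exact hb (Or.inr hbu)
  · exact ha

end Pool.Agent.Results.MP_0e1dbc_co.BlockStructure
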